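import Pool.Agent.Work.MP_db9399_ow.Interface

/-!
# MP_db9399, OWN: block DEV (helper20)
-/

set_option autoImplicit false

namespace Pool.Agent.Work.MP_db9399_ow.helper20

open Finset Classical
open Pool.Agent.Work.MP_db9399_all (nb mis pr DepOnI)
open Pool.Agent.Work.MP_db9399_en (ex ex_prod ex_sum ex_const_mul ex_mono ex_nonneg ex_add
  chern_up chern_low)
open Pool.Agent.Work.MP_db9399_ow

universe u v

section prob
variable {Ω : Type u}

theorem pr_inst (i i' : Fintype Ω) (E : Ω → Prop) : @pr Ω i E = @pr Ω i' E := by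
  have : i = i' := Subsingleton.elim _ _
  rw [this]

variable [Fintype Ω]

theorem pr_mono' {E E' : Ω → Prop} (h : ∀ ω, E ω → E' ω) : pr E ≤ pr E' := by
  unfold pr
  refine div_le_div_of_nonneg_right ?_ (Nat.cast_nonneg _)
  exact_mod_cast card_le_card fun ω hω => by
    rw [mem_filter] at hω ⊢
    exact ⟨hω.1, h ω hω.2⟩

theorem pr_or' (E E' : Ω → Prop) : pr (fun ω => E ω ∨ E' ω) ≤ pr E + pr E' := by
  unfold pr
  rw [← add_div]
  refine div_le_div_of_nonneg_right ?_ (Nat.cast_nonneg _)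
  have h2 : ∀ s : Finset Ω, (∀ ω ∈ s, E ω ∨ E' ω) →
      (s.card : ℝ) ≤ (univ.filter E).card + (univ.filter E').card := by
    intro s hs
    have h1 : s ⊆ univ.filter E ∪ univ.filter E' := by
      intro ω hω
      rw [mem_union, mem_filter, mem_filter]
      rcases hs ω hω with h | h
      · exact Or.inl ⟨mem_univ _, h⟩
      · exact Or.inr ⟨mem_univ _, h⟩
    exact_mod_cast (card_le_card h1).trans (card_union_le _ _)
  refine h2 _ fun ω hω => ?_
  simpa using hω

theorem pr_ex' {ι : Type v} (I : Finset ι) (E : ι → Ω → Prop) {p : ℝ}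
    (h : ∀ i ∈ I, pr (E i) ≤ p) : pr (fun ω => ∃ i ∈ I, E i ω) ≤ I.card * p := by
  induction I using Finset.induction_on with
  | empty =>
    have : pr (fun ω : Ω => ∃ i ∈ (∅ : Finset ι), E i ω) = 0 := by
      unfold pr
      simp
    rw [this]
    simp
  | @insert i I hi ih =>
    have h1 : pr (fun ω => ∃ j ∈ insert i I, E j ω) ≤ pr (fun ω => E i ω ∨ ∃ j ∈ I, E j ω) := by
      refine pr_mono' fun ω => ?_
      rintro ⟨j, hj, hE⟩
      rcases mem_insert.1 hj with rfl | hj
      · exact Or.inl hE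
      · exact Or.inr ⟨j, hj, hE⟩
    refine h1.trans ((pr_or' _ _).trans ?_)
    have h2 := ih fun j hj => h j (mem_insert_of_mem hj)
    have h3 := h i (mem_insert_self i I)
    rw [card_insert_of_notMem hi]
    push_cast
    linarith

/-- `pr` is the expectation of the indicator -/
theorem pr_eq_ex {J : Type u} [Fintype J] {M : ℕ} (i : Fintype (J → Fin M))
    (E : (J → Fin M) → Prop) :
    @pr _ i E = ex (fun ω => if E ω then (1 : ℝ) else 0) := by
  rw [pr_inst i (@Pi.instFintype J (fun _ => Fin M) (fun a b => propDecidable (a = b)) _ _)]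
  unfold pr ex
  rw [sum_boole]

end prob

section defs
variable {V : Type u} [Fintype V] {P M : ℕ}

/-- sum over the offered vertices -/
noncomputable def Xs (U : Finset V) (T : ℕ) (F : Fin P → V → ℝ) (b : Fin P)
    (ω : Fin P × V → Fin M) : ℝ := ∑ v ∈ off U T ω b, F b v

/-- sum over the local minima -/
noncomputable def Gs (G : SimpleGraph V) (U : Finset V) (T : ℕ) (F : Fin P → V → ℝ) (b : Fin P)
    (ω : Fin P × V → Fin M) : ℝ := ∑ v ∈ loc G U T ω b, F b v

/-- truncated -/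
noncomputable def Gt (G : SimpleGraph V) (U : Finset V) (T : ℕ) (F : Fin P → V → ℝ) (ξ : ℝ)
    (b : Fin P) (ω : Fin P × V → Fin M) : ℝ := if Xs U T F b ω < ξ then Gs G U T F b ω else 0

theorem sum_off (U : Finset V) (T : ℕ) (F : Fin P → V → ℝ) (b : Fin P) (ω : Fin P × V → Fin M) :
    ∑ y ∈ univ.filter (fun y : Fin P × V => y.2 ∈ off U T ω y.1),
      (if y.1 = b then F b y.2 else 0) = Xs U T F b ω := by
  rw [sum_filter, Fintype.sum_prod_type, sum_comm]
  unfold Xs
  have h2 : ∀ v : V, ∑ b' : Fin P, (if v ∈ off U T ω b' then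
      (if b' = b then F b v else 0) else 0) =
      if v ∈ off U T ω b then F b v else 0 := by
    intro v
    rw [sum_eq_single b]
    · simp
    · intro b' _ hb'
      simp [hb']
    · intro h
      exact absurd (mem_univ b) h
  have h3 : ∑ v : V, (if v ∈ off U T ω b then F b v else 0) = ∑ v ∈ off U T ω b, F b v := by
    rw [← sum_filter]
    refine sum_congr ?_ fun _ _ => rfl
    ext v
    simp
  rw [← h3]
  exact sum_congr rfl fun v _ => h2 v

theorem sum_one (F : Fin P → V → ℝ) (b : Fin P) :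
    ∑ y : Fin P × V, (if y.1 = b then F b y.2 else 0) = ∑ v, F b v := by
  rw [Fintype.sum_prod_type, sum_comm]
  refine sum_congr rfl fun v _ => ?_
  rw [sum_ite_eq' univ b, if_pos (mem_univ b)]

theorem Gs_le (G : SimpleGraph V) (U : Finset V) (T : ℕ) (F : Fin P → V → ℝ) (b : Fin P)
    (ω : Fin P × V → Fin M) (hF0 : ∀ b v, 0 ≤ F b v) : Gs G U T F b ω ≤ Xs U T F b ω := by
  refine sum_le_sum_of_subset_of_nonneg ?_ fun v _ _ => hF0 b v
  intro v hv
  simp only [loc, off, mem_filter] at hv ⊢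
  exact ⟨hv.1, hv.2.1⟩

theorem dep_Gt (G : SimpleGraph V) (U : Finset V) (T : ℕ) (F : Fin P → V → ℝ) (ξ : ℝ)
    (b : Fin P) : DepOnI (M := M) (univ.filter (fun y : Fin P × V => y.1 = b))
      (Gt G U T F ξ b) := by
  intro a a' haa
  have h1 : ∀ v, a (b, v) = a' (b, v) := fun v => haa (b, v) (by simp)
  have h2 : off U T a b = off U T a' b := by
    unfold off
    simp only [h1]
  have h3 : loc G U T a b = loc G U T a' b := by
    unfold loc
    simp only [h1]
  unfold Gt Gs Xs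
  rw [h2, h3]

theorem ex_Gs (hL : Stmt_LOCP.{u}) (G : SimpleGraph V) (U : Finset V) (T : ℕ)
    (F : Fin P → V → ℝ) (b : Fin P) (hM : 0 < M) (hT : T ≤ M) :
    ex (M := M) (Gs G U T F b) = ∑ v ∈ U, Pv G U M T v * F b v := by
  have h1 : Gs G U T F b = fun ω : Fin P × V → Fin M =>
      ∑ v ∈ U, F b v * (if v ∈ loc G U T ω b then (1 : ℝ) else 0) := by
    funext ω
    simp only [mul_ite, mul_one, mul_zero]
    rw [← sum_filter]
    unfold Gs
    refine sum_congr ?_ fun _ _ => rfl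
    ext v
    simp only [loc, mem_filter]
    tauto
  rw [h1, ex_sum]
  refine sum_congr rfl fun v hv => ?_
  rw [ex_const_mul, hL P M T G U b v hM hT hv, mul_comm]

end defs

theorem stmt_DEV (hO : Stmt_OFFX.{u}) (hL : Stmt_LOCP.{u}) : Stmt_DEV.{u} := by
  intro V _ P D N1 G U B F K ξ Λ ε hN1 hND hK hΛ hε hε1 hF0 hFK hF1 hmu hξ hKξ hξε hBε
  have hD : 0 < D := by omega
  have hDR : (0 : ℝ) < D := by exact_mod_cast hD
  have hN1R : (1 : ℝ) ≤ N1 := by exact_mod_cast hN1
  have hM : 0 < D * N1 := Nat.mul_pos hD (by omega)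
  have hTM : N1 ^ 2 ≤ D * N1 := by
    rw [pow_two]
    exact Nat.mul_le_mul_right _ hND.le
  have hξ0 : 0 < ξ := lt_of_lt_of_le (by positivity) hξ
  have hTq : ((N1 ^ 2 : ℕ) : ℝ) ≤ (N1 : ℝ) / D * ((D * N1 : ℕ) : ℝ) := by
    push_cast
    have : (N1 : ℝ) / D * (D * N1) = (N1 : ℝ) ^ 2 := by
      field_simp
    rw [this]
  generalize hTd : N1 ^ 2 = T at hmu hTM hTq ⊢
  generalize hMd : D * N1 = M at hmu hTM hTq hM ⊢
  have hXb : ∀ b, pr (fun ω : Fin P × V → Fin M => ξ ≤ Xs U T F b ω) ≤ Real.exp (-Λ) := by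
    intro b
    have h1 := hO (V := V) P M T U (fun y => if y.1 = b then F b y.2 else 0)
      ((N1 : ℝ) / D) K 1 ξ Λ hM hTq (by positivity) hK one_pos hΛ (fun y => by
          show 0 ≤ (if y.1 = b then F b y.2 else 0)
          split_ifs
          · exact hF0 b y.2
          · exact le_refl 0) (fun y => by
          show (if y.1 = b then F b y.2 else 0) ≤ K
          split_ifs
          · exact hFK b y.2
          · exact hK.le) (by
          rw [sum_one]
          exact hF1 b) (by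
          have : 2 * ((N1 : ℝ) / D) * 1 = 2 * (N1 : ℝ) / D := by ring
          rw [this]
          exact hξ) hKξ
    simp only [sum_off] at h1
    exact h1
  have hX1 : ∀ b (ω : Fin P × V → Fin M), Xs U T F b ω ≤ 1 := fun b ω =>
    (sum_le_sum_of_subset_of_nonneg (subset_univ _) fun v _ _ => hF0 b v).trans (hF1 b)
  have hG0 : ∀ b (ω : Fin P × V → Fin M), 0 ≤ Gs G U T F b ω :=
    fun b ω => sum_nonneg fun v _ => hF0 b v
  have hG'0 : ∀ b (ω : Fin P × V → Fin M), 0 ≤ Gt G U T F ξ b ω := by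
    intro b ω
    unfold Gt
    split_ifs
    · exact hG0 b ω
    · exact le_refl 0
  have hG'ξ : ∀ b (ω : Fin P × V → Fin M), Gt G U T F ξ b ω ≤ ξ := by
    intro b ω
    unfold Gt
    split_ifs with h
    · exact (Gs_le G U T F b ω hF0).trans h.le
    · exact hξ0.le
  have hexG : ∀ b, ex (M := M) (Gs G U T F b) = ∑ v ∈ U, Pv G U M T v * F b v :=
    fun b => ex_Gs hL G U T F b hM hTM
  obtain ⟨mu, hmud⟩ : ∃ mu : Fin P → ℝ, mu = fun b => ∑ v ∈ U, Pv G U M T v * F b v := ⟨_, rfl⟩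
  have hexG : ∀ b, ex (M := M) (Gs G U T F b) = mu b := by
    intro b
    rw [hexG b, hmud]
  have hmu : ∑ b ∈ B, mu b ≤ 1 := by
    rw [hmud]
    exact hmu
  have hexG' : ∀ b, ex (M := M) (Gt G U T F ξ b) ≤ mu b := by
    intro b
    rw [← hexG b]
    refine ex_mono hM fun ω => ?_
    unfold Gt
    split_ifs
    · exact le_refl _
    · exact hG0 b ω
  have hexG'2 : ∀ b, mu b - Real.exp (-Λ) ≤ ex (M := M) (Gt G U T F ξ b) := by
    intro b
    rw [← hexG b]
    have h1 : ex (M := M) (Gs G U T F b) ≤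
        ex (M := M) (fun ω => Gt G U T F ξ b ω + (if ξ ≤ Xs U T F b ω then (1 : ℝ) else 0)) := by
      refine ex_mono hM fun ω => ?_
      unfold Gt
      by_cases h : Xs U T F b ω < ξ
      · rw [if_pos h, if_neg (not_le.2 h), add_zero]
      · rw [if_neg h, if_pos (not_lt.1 h), zero_add]
        exact (Gs_le G U T F b ω hF0).trans (hX1 b ω)
    have h2 := hXb b
    rw [pr_eq_ex] at h2
    rw [ex_add] at h1
    have h3 : ex (M := M) (fun ω => Gt G U T F ξ b ω) = ex (M := M) (Gt G U T F ξ b) := rfl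
    rw [h3] at h1
    linarith
  -- the sums
  set S : ℝ := ∑ b ∈ B, mu b with hS
  have hS1 : S ≤ 1 := hmu
  have hexS : ∑ b ∈ B, ex (M := M) (Gt G U T F ξ b) ≤ S := sum_le_sum fun b _ => hexG' b
  have hexS2 : S - ε / 2 ≤ ∑ b ∈ B, ex (M := M) (Gt G U T F ξ b) := by
    have h1 : ∑ b ∈ B, (mu b - Real.exp (-Λ)) ≤ ∑ b ∈ B, ex (M := M) (Gt G U T F ξ b) :=
      sum_le_sum fun b _ => hexG'2 b
    rw [sum_sub_distrib, sum_const, nsmul_eq_mul] at h1
    linarith
  have hS0 : 0 ≤ S := (sum_nonneg fun b _ => ex_nonneg fun ω => hG'0 b ω).trans hexS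
  have hdis : ∀ b ∈ B, ∀ b' ∈ B, b ≠ b' →
      Disjoint (univ.filter (fun y : Fin P × V => y.1 = b))
        (univ.filter (fun y : Fin P × V => y.1 = b')) := by
    intro b _ b' _ hne
    rw [disjoint_left]
    intro y hy hy'
    simp only [mem_filter, mem_univ, true_and] at hy hy'
    exact hne (hy.symm.trans hy')
  have hΛξ : Λ ≤ ε ^ 2 / (64 * ξ) := by
    rw [le_div_iff₀ (by positivity)]
    linarith
  -- upper tail
  have hup : pr (fun ω : Fin P × V → Fin M => S + ε / 2 + ε / 2 ≤ ∑ b ∈ B, Gt G U T F ξ b ω) ≤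
      Real.exp (-Λ) := by
    have h1 := chern_up hM B (fun b => univ.filter (fun y : Fin P × V => y.1 = b))
      (Gt G U T F ξ) (fun b _ => dep_Gt G U T F ξ b) hdis (fun b _ ω => hG'0 b ω)
      (fun b _ ω => hG'ξ b ω) hξ0
      (m := S + ε / 2) (s := ε / 2) (by linarith) (by linarith) (by linarith)
    refine ((pr_inst _ _ _).trans_le h1).trans (Real.exp_le_exp.2 (neg_le_neg (le_min ?_ ?_)))
    · refine hΛξ.trans ?_
      rw [div_le_div_iff₀ (by positivity) (by positivity)]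
      have h3 : 0 ≤ ε ^ 2 * ξ := by positivity
      have h4 : S + ε / 2 ≤ 2 := by linarith
      calc ε ^ 2 * (4 * ξ * (S + ε / 2)) = 4 * (ε ^ 2 * ξ) * (S + ε / 2) := by ring
        _ ≤ 4 * (ε ^ 2 * ξ) * 2 := mul_le_mul_of_nonneg_left h4 (by positivity)
        _ ≤ (ε / 2) ^ 2 * (64 * ξ) := by nlinarith
    · refine hΛξ.trans ?_
      rw [div_le_div_iff₀ (by positivity) (by positivity)]
      have h3 : ε ^ 2 ≤ ε := by nlinarith
      have h4 : ε ^ 2 * ξ ≤ ε * ξ := mul_le_mul_of_nonneg_right h3 hξ0.le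
      nlinarith
  -- lower tail
  have hlow : pr (fun ω : Fin P × V → Fin M => ∑ b ∈ B, Gt G U T F ξ b ω ≤ S - ε / 2 - ε / 2) ≤
      Real.exp (-Λ) := by
    have h1 := chern_low hM B (fun b => univ.filter (fun y : Fin P × V => y.1 = b))
      (Gt G U T F ξ) (fun b _ => dep_Gt G U T F ξ b) hdis (fun b _ ω => hG'0 b ω)
      (fun b _ ω => hG'ξ b ω) hξ0
      (m := 2) (m0 := S - ε / 2) (s := ε / 2) two_pos (by linarith) hexS2 (by linarith)
      (by linarith)
    refine ((pr_inst _ _ _).trans_le h1).trans (Real.exp_le_exp.2 (neg_le_neg ?_))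
    refine hΛξ.trans ?_
    rw [div_le_div_iff₀ (by positivity) (by positivity)]
    have h3 : 0 ≤ ε ^ 2 * ξ := by positivity
    nlinarith
  -- union
  have hun := pr_ex' B (fun b (ω : Fin P × V → Fin M) => ξ ≤ Xs U T F b ω) fun b _ => hXb b
  have hall : pr (fun ω : Fin P × V → Fin M => ε ≤ |∑ b ∈ B,
      (∑ v ∈ loc G U T ω b, F b v - ∑ v ∈ U, Pv G U M T v * F b v)|) ≤
      pr (fun ω : Fin P × V → Fin M => (∃ b ∈ B, ξ ≤ Xs U T F b ω) ∨
        ((S + ε / 2 + ε / 2 ≤ ∑ b ∈ B, Gt G U T F ξ b ω) ∨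
        (∑ b ∈ B, Gt G U T F ξ b ω ≤ S - ε / 2 - ε / 2))) := by
    refine pr_mono' fun ω hω => ?_
    by_cases hb : ∃ b ∈ B, ξ ≤ Xs U T F b ω
    · exact Or.inl hb
    · right
      push Not at hb
      have h1 : ∑ b ∈ B, Gt G U T F ξ b ω = ∑ b ∈ B, ∑ v ∈ loc G U T ω b, F b v := by
        refine sum_congr rfl fun b hbB => ?_
        unfold Gt
        rw [if_pos (hb b hbB)]
        rfl
      rw [sum_sub_distrib] at hω
      rw [h1]
      have h4 : S = ∑ b ∈ B, ∑ v ∈ U, Pv G U M T v * F b v := by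
        rw [hS, hmud]
      rw [← h4] at hω
      rcases le_abs.1 hω with h | h
      · left
        linarith
      · right
        linarith
  refine hall.trans ((pr_or' _ _).trans ?_)
  have h5 := pr_or' (fun ω : Fin P × V → Fin M => S + ε / 2 + ε / 2 ≤ ∑ b ∈ B, Gt G U T F ξ b ω)
    (fun ω => ∑ b ∈ B, Gt G U T F ξ b ω ≤ S - ε / 2 - ε / 2)
  linarith

end Pool.Agent.Work.MP_db9399_ow.helper20
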