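import Pool.Agent.Work.MP_db9399_ow.Interface

/-!
# MP_db9399, OWN: block LOCP (helper20)
-/

set_option autoImplicit false

namespace Pool.Agent.Work.MP_db9399_ow.helper20

open Finset Classical
open Pool.Agent.Work.MP_db9399_all (nb mis pr DepOnI)
open Pool.Agent.Work.MP_db9399_en (ex ex_prod ex_sum ex_const_mul)
open Pool.Agent.Work.MP_db9399_ow

universe u v

/-- the expectation of a function of one coordinate -/
theorem ex_coord {J : Type u} [Fintype J] {M : ℕ} (hM : 0 < M) (y : J) (f : Fin M → ℝ) :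
    ex (fun ω : J → Fin M => f (ω y)) = (∑ i, f i) / M := by
  have hne : Nonempty (Fin M) := ⟨⟨0, hM⟩⟩
  let e : (J → Fin M) ≃ Fin M × ({j // j ≠ y} → Fin M) := Equiv.funSplitAt y (Fin M)
  have hc : Fintype.card (J → Fin M) = M * Fintype.card ({j // j ≠ y} → Fin M) := by
    rw [Fintype.card_congr e, Fintype.card_prod, Fintype.card_fin]
  have hp : 0 < Fintype.card ({j // j ≠ y} → Fin M) := Fintype.card_pos
  have hs : ∑ ω : J → Fin M, f (ω y) =
      (Fintype.card ({j // j ≠ y} → Fin M) : ℝ) * ∑ i, f i := by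
    have h1 : ∑ ω : J → Fin M, f (ω y) = ∑ p : Fin M × ({j // j ≠ y} → Fin M), f p.1 :=
      Fintype.sum_equiv e _ _ fun ω => rfl
    rw [h1, Fintype.sum_prod_type, mul_sum]
    refine sum_congr rfl fun i _ => ?_
    simp only [sum_const, card_univ, nsmul_eq_mul]
  unfold ex
  rw [hs, hc]
  have hM' : (M : ℝ) ≠ 0 := by exact_mod_cast hM.ne'
  have hp' : (Fintype.card ({j // j ≠ y} → Fin M) : ℝ) ≠ 0 := by exact_mod_cast hp.ne'
  push_cast
  field_simp

/-- number of labels larger than `t` -/
theorem card_gt {M t : ℕ} (ht : t < M) :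
    ∑ i : Fin M, (if t < (i : ℕ) then (1 : ℝ) else 0) = (M : ℝ) - (t + 1) := by
  have h1 : ∑ i : Fin M, (if t < (i : ℕ) then (1 : ℝ) else 0) =
      ∑ i ∈ range M, (if t < i then (1 : ℝ) else 0) :=
    Fin.sum_univ_eq_sum_range (fun i => if t < i then (1 : ℝ) else 0) M
  rw [h1, ← sum_filter, sum_const, nsmul_eq_mul, mul_one]
  have h2 : (range M).filter (fun i => t < i) = Finset.Ico (t + 1) M := by
    ext i
    simp only [mem_filter, mem_range, mem_Ico]
    omega
  rw [h2, Nat.card_Ico, Nat.cast_sub (by omega)]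
  push_cast
  ring

/-- one label -/
theorem card_eq {M t : ℕ} (ht : t < M) :
    ∑ i : Fin M, (if (i : ℕ) = t then (1 : ℝ) else 0) = 1 := by
  have h1 : ∑ i : Fin M, (if (i : ℕ) = t then (1 : ℝ) else 0) =
      ∑ i ∈ range M, (if i = t then (1 : ℝ) else 0) :=
    Fin.sum_univ_eq_sum_range (fun i => if i = t then (1 : ℝ) else 0) M
  rw [h1, sum_ite_eq' (range M) t, if_pos (mem_range.2 ht)]

theorem stmt_LOCP : Stmt_LOCP.{u} := by
  intro V _ P M T G U b v hM hT hv
  set N : Finset V := nb G v ∩ U with hN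
  have hvN : v ∉ N := by
    intro h
    rw [hN, mem_inter] at h
    have := h.1
    simp only [nb, mem_filter, mem_univ, true_and] at this
    exact G.loopless.irrefl v this
  -- decomposition in the label
  have h1 : ∀ ω : Fin P × V → Fin M, (if v ∈ loc G U T ω b then (1 : ℝ) else 0) =
      ∑ t ∈ range T, ∏ w ∈ insert v N, (if w = v then (if (ω (b, v) : ℕ) = t then (1 : ℝ) else 0)
        else (if t < (ω (b, w) : ℕ) then (1 : ℝ) else 0)) := by
    intro ω
    have h2 : ∀ t, ∏ w ∈ insert v N, (if w = v then (if (ω (b, v) : ℕ) = t then (1 : ℝ) else 0)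
        else (if t < (ω (b, w) : ℕ) then (1 : ℝ) else 0)) =
        if (ω (b, v) : ℕ) = t then (∏ w ∈ N, (if t < (ω (b, w) : ℕ) then (1 : ℝ) else 0))
          else 0 := by
      intro t
      rw [prod_insert hvN, if_pos rfl]
      have h3 : ∏ w ∈ N, (if w = v then (if (ω (b, v) : ℕ) = t then (1 : ℝ) else 0)
        else (if t < (ω (b, w) : ℕ) then (1 : ℝ) else 0)) =
          ∏ w ∈ N, (if t < (ω (b, w) : ℕ) then (1 : ℝ) else 0) := by
        refine prod_congr rfl fun w hw => ?_
        rw [if_neg]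
        rintro rfl
        exact hvN hw
      rw [h3]
      split_ifs <;> simp
    simp only [h2]
    rw [sum_ite_eq (range T)]
    have h4 : v ∈ loc G U T ω b ↔ ((ω (b, v) : ℕ) ∈ range T ∧
        ∀ w ∈ N, (ω (b, v) : ℕ) < ω (b, w)) := by
      simp only [loc, mem_filter, mem_range, hv, true_and, hN]
    by_cases h5 : (ω (b, v) : ℕ) ∈ range T
    · rw [if_pos h5]
      by_cases h6 : ∀ w ∈ N, (ω (b, v) : ℕ) < ω (b, w)
      · rw [if_pos (h4.2 ⟨h5, h6⟩)]
        symm
        refine prod_eq_one fun w hw => if_pos (h6 w hw)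
      · rw [if_neg fun h => h6 (h4.1 h).2]
        push Not at h6
        obtain ⟨w, hw, hlt⟩ := h6
        symm
        exact prod_eq_zero hw (if_neg (not_lt.2 hlt))
    · rw [if_neg h5, if_neg fun h => h5 (h4.1 h).1]
  simp only [h1]
  rw [ex_sum]
  unfold Pv Pn
  refine sum_congr rfl fun t ht => ?_
  have htM : t < M := lt_of_lt_of_le (mem_range.1 ht) hT
  rw [ex_prod hM (insert v N) (fun w => {(b, w)})
    (fun w ω => (if w = v then (if (ω (b, v) : ℕ) = t then (1 : ℝ) else 0)
        else (if t < (ω (b, w) : ℕ) then (1 : ℝ) else 0)))]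
  · rw [prod_insert hvN]
    have hMR : (M : ℝ) ≠ 0 := by exact_mod_cast hM.ne'
    have h5 : ex (fun ω : Fin P × V → Fin M => if v = v then
        (if (ω (b, v) : ℕ) = t then (1 : ℝ) else 0)
        else (if t < (ω (b, v) : ℕ) then (1 : ℝ) else 0)) = 1 / M := by
      simp only [if_true]
      rw [ex_coord hM (b, v) (fun i => if (i : ℕ) = t then (1 : ℝ) else 0), card_eq htM]
    rw [h5]
    have h6 : ∏ w ∈ N, ex (fun ω : Fin P × V → Fin M => if w = v then
        (if (ω (b, v) : ℕ) = t then (1 : ℝ) else 0)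
        else (if t < (ω (b, w) : ℕ) then (1 : ℝ) else 0)) =
        ∏ w ∈ N, (1 - ((t : ℝ) + 1) / M) := by
      refine prod_congr rfl fun w hw => ?_
      have hwv : w ≠ v := by
        rintro rfl
        exact hvN hw
      simp only [if_neg hwv]
      rw [ex_coord hM (b, w) (fun i => if t < (i : ℕ) then (1 : ℝ) else 0), card_gt htM]
      field_simp
    rw [h6, prod_const]
  · intro w _ a a' haa
    have h5 : a (b, w) = a' (b, w) := haa _ (mem_singleton_self _)
    by_cases hwv : w = v
    · subst hwv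
      simp only [if_true, h5]
    · simp only [if_neg hwv, h5]
  · intro w _ w' _ hne
    rw [disjoint_singleton]
    intro h
    exact hne (Prod.ext_iff.1 h).2

end Pool.Agent.Work.MP_db9399_ow.helper20
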